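import Pool.Agent.J6H23.Rig.Final

/-!
# Paley-Hadamard matrices are not Valiant-rigid over the rationals

The full answer to Q1: for every `ε > 0` all but finitely many Paley-Hadamard matrices `H_q`
(`q` a prime power, `q ≡ 3 mod 4`, order `n = q + 1`) satisfy
`R_ℚ(H_q, n / log log n) < n ^ (1 + ε)`.
-/

set_option autoImplicit false

namespace Pool.Agent.Results.MP_dad03b_lc.NotRigid

/-- The bordered matrix with blocks `0`, the all ones row, the all minus ones column and
`Q = (χ (x - y))`, where `χ` is the quadratic character of the finite field `F`. The extra index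
(the first row and column) is `none`. -/
def bordered (F : Type) [Field F] [Fintype F] [DecidableEq F] :
    Matrix (Option F) (Option F) ℚ
  | none, none => 0
  | none, some _ => 1
  | some _, none => -1
  | some x, some y => ((quadraticChar F (x - y) : ℤ) : ℚ)

/-- The Paley-Hadamard matrix `H_q` (for the finite field `F` with `q` elements), of order
`q + 1`, over the rationals. -/
def paleyHadamard (F : Type) [Field F] [Fintype F] [DecidableEq F] :
    Matrix (Option F) (Option F) ℚ :=
  1 + bordered F

/-- The number of nonzero entries of a matrix. -/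
noncomputable def numNonzero {n : Type} (Z : Matrix n n ℚ) : ℕ :=
  {p : n × n | Z p.1 p.2 ≠ 0}.ncard

/-- The rigidity `R_ℚ(A, r)` of a rational matrix: the least number of nonzero entries of a
rational matrix `Z` with `rank (A - Z) ≤ r`. -/
noncomputable def rigidity {n : Type} [Fintype n] (A : Matrix n n ℚ) (r : ℝ) : ℕ :=
  sInf {k : ℕ | ∃ Z : Matrix n n ℚ, ((A - Z).rank : ℝ) ≤ r ∧ numNonzero Z = k}

/-- **The Paley-Hadamard matrices are not Valiant-rigid over `ℚ`.** For every `ε > 0` there is
`q₀` such that for every finite field `F` with `q ≡ 3 mod 4` elements, `q ≥ q₀`, writing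
`n = q + 1`, one has `R_ℚ(H_q, n / log log n) < n ^ (1 + ε)`. -/
theorem result : ∀ ε : ℝ, 0 < ε → ∃ q₀ : ℕ, ∀ (F : Type) [Field F] [Fintype F] [DecidableEq F],
    Fintype.card F % 4 = 3 → q₀ ≤ Fintype.card F →
    (rigidity (paleyHadamard F) (((Fintype.card F : ℝ) + 1) /
      Real.log (Real.log ((Fintype.card F : ℝ) + 1))) : ℝ) <
      ((Fintype.card F : ℝ) + 1) ^ (1 + ε) := by
  intro ε hε
  obtain ⟨q₀, h⟩ := Pool.Agent.J6H23.Rig.main hε
  refine ⟨q₀, fun F _ _ _ _ hq => ?_⟩
  obtain ⟨Z, hZ1, hZ2⟩ := h F (paleyHadamard F) hq (by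
    intro x y
    have h1 : (some (x : F) = some (y : F)) ↔ x = y := by
      rw [Option.some_inj, Units.val_inj]
    simp only [paleyHadamard, Matrix.add_apply, Matrix.one_apply, h1, bordered])
  refine lt_of_le_of_lt ?_ hZ2
  have h2 : rigidity (paleyHadamard F) (((Fintype.card F : ℝ) + 1) /
      Real.log (Real.log ((Fintype.card F : ℝ) + 1))) ≤ numNonzero Z :=
    Nat.sInf_le ⟨Z, hZ1, rfl⟩
  exact_mod_cast h2

end Pool.Agent.Results.MP_dad03b_lc.NotRigid
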